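import Mathlib
import Pool.Prelude.Def_F_79fae1ed

/-!
# Block F: elementary facts on smooth components
-/

set_option autoImplicit false

open N298f9e75

namespace EG

namespace F

theorem smooth_dvd {t m : ℕ} (hm : m ≠ 0) : smoothComponent t m ∣ m := by
  unfold smoothComponent
  have h1 : (m.primeFactorsList.filter (fun x => decide (x < t))).Sublist m.primeFactorsList :=
    List.filter_sublist
  have h2 := h1.prod_dvd_prod
  rwa [Nat.prod_primeFactorsList hm] at h2

theorem dvd_smooth {t m p : ℕ} (hp : p.Prime) (hpt : p < t) (hm : m ≠ 0) (hpm : p ∣ m) :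
    p ∣ smoothComponent t m := by
  unfold smoothComponent
  apply List.dvd_prod
  rw [List.mem_filter]
  exact ⟨(Nat.mem_primeFactorsList hm).2 ⟨hp, hpm⟩, by simpa using hpt⟩

end F

theorem card_le_f (n t : ℕ) (M : Finset ℕ) (hM : M ⊆ Finset.Icc (n + 1) (n + t))
    (h : ∀ m ∈ M, t ≤ smoothComponent t m) : M.card ≤ f n t := by
  classical
  have hinj : Set.InjOn (smoothComponent t) (M : Set ℕ) := by
    have key : ∀ m ∈ M, ∀ m' ∈ M, smoothComponent t m = smoothComponent t m' → m ≤ m' →
        m = m' := by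
      intro m hm m' hm' he hle
      have h1 := Finset.mem_Icc.1 (hM hm)
      have h2 := Finset.mem_Icc.1 (hM hm')
      have h3 : smoothComponent t m ∣ m := F.smooth_dvd (by omega)
      have h4 : smoothComponent t m ∣ m' := by
        rw [he]
        exact F.smooth_dvd (by omega)
      have h5 : smoothComponent t m ∣ m' - m := Nat.dvd_sub h4 h3
      have h6 := h m hm
      by_contra hne
      have h7 : 0 < m' - m := by omega
      have h8 := Nat.le_of_dvd h7 h5
      omega
    intro m hm m' hm' he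
    rcases le_total m m' with h1 | h1
    · exact key m hm m' hm' he h1
    · exact (key m' hm' m hm he.symm h1).symm
  rw [← Finset.card_image_of_injOn hinj]
  exact Finset.card_le_card (Finset.image_subset_image hM)

theorem mul_le_smooth {p q t m : ℕ} (hp : p.Prime) (hq : q.Prime) (hpq : p ≠ q) (hpt : p < t)
    (hqt : q < t) (hm : m ≠ 0) (hpm : p ∣ m) (hqm : q ∣ m) : p * q ≤ smoothComponent t m := by
  have h1 := F.dvd_smooth hp hpt hm hpm
  have h2 := F.dvd_smooth hq hqt hm hqm
  have h3 : smoothComponent t m ∣ m := F.smooth_dvd hm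
  have h4 : 0 < smoothComponent t m := Nat.pos_of_dvd_of_pos h3 (Nat.pos_of_ne_zero hm)
  exact Nat.le_of_dvd h4 (((Nat.coprime_primes hp hq).2 hpq).mul_dvd_of_dvd_of_dvd h1 h2)

/-- a number at most t^(A+1) has at most 2A+2 prime factors p with t <= p^2 -/
theorem card_large_primes {A t m : ℕ} (ht : 2 ≤ t) (hm : m ≠ 0) (hmt : m ≤ t ^ (A + 1)) :
    (m.primeFactors.filter (fun p => t ≤ p ^ 2)).card ≤ 2 * A + 2 := by
  classical
  set s := m.primeFactors.filter (fun p => t ≤ p ^ 2) with hs
  have h1 : (∏ p ∈ s, p) ∣ m :=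
    (Finset.prod_dvd_prod_of_subset _ _ _ (Finset.filter_subset _ _)).trans
      (Nat.prod_primeFactors_dvd m)
  have h2 : (∏ p ∈ s, p) ≤ t ^ (A + 1) :=
    (Nat.le_of_dvd (Nat.pos_of_ne_zero hm) h1).trans hmt
  have h3 : t ^ s.card ≤ (∏ p ∈ s, p) ^ 2 := by
    rw [← Finset.prod_pow, ← Finset.prod_const]
    exact Finset.prod_le_prod' fun p hp => (Finset.mem_filter.1 hp).2
  have h4 : t ^ s.card ≤ t ^ (2 * A + 2) := by
    calc t ^ s.card ≤ (∏ p ∈ s, p) ^ 2 := h3
      _ ≤ (t ^ (A + 1)) ^ 2 := Nat.pow_le_pow_left h2 2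
      _ = t ^ (2 * A + 2) := by rw [← pow_mul]; ring_nf
  exact (Nat.pow_le_pow_iff_right (by omega)).1 h4

end EG
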