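import Mathlib

/-!
# Block P: primes between `4 ^ i` and `4 ^ (i + 1)`
-/

set_option autoImplicit false

namespace EG

namespace P

open Real Chebyshev

theorem num_bound (i : ℕ) (hi : 7 ≤ i) : 2 * (i + 2) + 8 * (i + 1) * 2 ^ i ≤ 4 ^ i := by
  have h1 : ∀ j : ℕ, 7 ≤ j → 8 * (j + 1) + 1 ≤ 2 ^ j := by
    intro j hj
    induction j, hj using Nat.le_induction with
    | base => norm_num
    | succ j hj ih =>
      rw [pow_succ]
      omega
  have h2 : 2 * (i + 2) ≤ 2 ^ i := by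
    have := h1 i hi
    omega
  have h3 : (4 : ℕ) ^ i = 2 ^ i * 2 ^ i := by
    rw [← mul_pow]
    norm_num
  rw [h3]
  calc 2 * (i + 2) + 8 * (i + 1) * 2 ^ i ≤ 2 ^ i + 8 * (i + 1) * 2 ^ i := by omega
    _ = (8 * (i + 1) + 1) * 2 ^ i := by ring
    _ ≤ 2 ^ i * 2 ^ i := Nat.mul_le_mul_right _ (h1 i hi)

end P

open Real Chebyshev in
theorem primes_block : ∃ c : ℝ, 0 < c ∧ ∃ i₀ : ℕ, 1 ≤ i₀ ∧ ∀ i : ℕ, i₀ ≤ i →
    c * 4 ^ i / i ≤ (((Finset.Ioc (4 ^ i) (4 ^ (i + 1))).filter Nat.Prime).card : ℝ) := by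
  refine ⟨1 / 4, by norm_num, 7, by norm_num, fun i hi => ?_⟩
  have hi0 : (0 : ℝ) < i := by
    have : 0 < i := by omega
    exact_mod_cast this
  have hi1 : (1 : ℝ) ≤ i := by
    have : 1 ≤ i := by omega
    exact_mod_cast this
  have hl2 : 0 < log 2 := log_pos (by norm_num)
  have hl4 : log 4 = 2 * log 2 := by
    rw [show (4 : ℝ) = 2 ^ 2 by norm_num, log_pow]
    norm_num
  set N : ℝ := (((Finset.Ioc (4 ^ i) (4 ^ (i + 1))).filter Nat.Prime).card : ℝ) with hN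
  -- the difference of the theta functions
  have h1 : θ ((4 ^ (i + 1) : ℕ) : ℝ) - θ ((4 ^ i : ℕ) : ℝ) ≤ N * ((i + 1) * log 4) := by
    rw [theta_eq_sum_Icc, theta_eq_sum_Icc, Nat.floor_natCast, Nat.floor_natCast]
    have hle : (4 : ℕ) ^ i ≤ 4 ^ (i + 1) := Nat.pow_le_pow_right (by norm_num) (by omega)
    have h2 : (Finset.Icc 0 (4 ^ (i + 1))).filter Nat.Prime =
        (Finset.Icc 0 (4 ^ i)).filter Nat.Prime ∪
          (Finset.Ioc (4 ^ i) (4 ^ (i + 1))).filter Nat.Prime := by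
      ext p
      simp only [Finset.mem_filter, Finset.mem_union, Finset.mem_Icc, Finset.mem_Ioc]
      constructor
      · rintro ⟨⟨-, h3⟩, h4⟩
        rcases le_or_gt p (4 ^ i) with h5 | h5
        · exact Or.inl ⟨⟨Nat.zero_le _, h5⟩, h4⟩
        · exact Or.inr ⟨⟨h5, h3⟩, h4⟩
      · rintro (⟨⟨-, h3⟩, h4⟩ | ⟨⟨-, h3⟩, h4⟩)
        · exact ⟨⟨Nat.zero_le _, h3.trans hle⟩, h4⟩
        · exact ⟨⟨Nat.zero_le _, h3⟩, h4⟩
    have h3 : Disjoint ((Finset.Icc 0 (4 ^ i)).filter Nat.Prime)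
        ((Finset.Ioc (4 ^ i) (4 ^ (i + 1))).filter Nat.Prime) := by
      rw [Finset.disjoint_left]
      intro p hp hp'
      simp only [Finset.mem_filter, Finset.mem_Icc, Finset.mem_Ioc] at hp hp'
      omega
    rw [h2, Finset.sum_union h3, add_sub_cancel_left, hN, ← nsmul_eq_mul]
    apply Finset.sum_le_card_nsmul
    intro p hp
    simp only [Finset.mem_filter, Finset.mem_Ioc] at hp
    have h4 : (p : ℝ) ≤ 4 ^ (i + 1) := by exact_mod_cast hp.1.2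
    have h5 : (0 : ℝ) < p := by exact_mod_cast hp.2.pos
    calc log p ≤ log (4 ^ (i + 1)) := log_le_log h5 h4
      _ = (i + 1) * log 4 := by rw [log_pow]; push_cast; ring
  have h2 : θ ((4 ^ i : ℕ) : ℝ) ≤ log 4 * 4 ^ i := by
    have := theta_le_log4_mul_x (x := ((4 ^ i : ℕ) : ℝ)) (by positivity)
    calc θ ((4 ^ i : ℕ) : ℝ) ≤ log 4 * ((4 ^ i : ℕ) : ℝ) := this
      _ = log 4 * 4 ^ i := by push_cast; ring
  have h3 := theta_ge (4 ^ (i + 1))
  have h4 : log (((4 ^ (i + 1) : ℕ) : ℝ) + 1) ≤ (i + 2) * log 4 := by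
    have : ((4 ^ (i + 1) : ℕ) : ℝ) + 1 ≤ 4 ^ (i + 2) := by
      have h5 : (4 : ℝ) ^ (i + 2) = 4 * 4 ^ (i + 1) := by ring
      have h6 : (1 : ℝ) ≤ 4 ^ (i + 1) := one_le_pow₀ (by norm_num)
      push_cast
      linarith
    calc log (((4 ^ (i + 1) : ℕ) : ℝ) + 1) ≤ log (4 ^ (i + 2)) :=
          log_le_log (by positivity) this
      _ = (i + 2) * log 4 := by rw [log_pow]; push_cast; ring
  have h5 : √((4 ^ (i + 1) : ℕ) : ℝ) = 2 ^ (i + 1) := by
    rw [Real.sqrt_eq_iff_mul_self_eq (by positivity) (by positivity)]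
    push_cast
    rw [← mul_pow]
    norm_num
  have h6 : log ((4 ^ (i + 1) : ℕ) : ℝ) = (i + 1) * log 4 := by
    push_cast
    rw [log_pow]
    push_cast
    ring
  rw [h5, h6] at h3
  have h7 : (2 : ℝ) * (i + 2) + 8 * (i + 1) * 2 ^ i ≤ 4 ^ i := by
    exact_mod_cast P.num_bound i hi
  have h8 : (((4 ^ (i + 1) : ℕ) : ℝ)) = 4 * 4 ^ i := by
    push_cast
    ring
  rw [h8] at h3
  rw [h8] at h4
  rw [h8] at h1
  have h9 : (2 : ℝ) ^ (i + 1) = 2 * 2 ^ i := by ring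
  rw [h9] at h3
  rw [hl4] at h1 h2 h3 h4
  have h10 : 4 ^ i * log 2 ≤ N * ((i + 1) * (2 * log 2)) := by
    have h11 : ((2 : ℝ) * (i + 2) + 8 * (i + 1) * 2 ^ i) * log 2 ≤ 4 ^ i * log 2 :=
      mul_le_mul_of_nonneg_right h7 hl2.le
    linarith [h1, h2, h3, h4, h11]
  have h12 : (4 : ℝ) ^ i ≤ N * ((i + 1) * 2) := by
    have : 4 ^ i * log 2 ≤ (N * ((i + 1) * 2)) * log 2 := by
      calc 4 ^ i * log 2 ≤ N * ((i + 1) * (2 * log 2)) := h10
        _ = (N * ((i + 1) * 2)) * log 2 := by ring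
    exact le_of_mul_le_mul_right this hl2
  have hN0 : 0 ≤ N := by rw [hN]; positivity
  rw [div_le_iff₀ hi0]
  nlinarith [h12, hN0, hi1]

end EG
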